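import Mathlib

/-!
# Wiener index minus total eccentricity: deleting a non-bridge edge (metric part)
-/

set_option autoImplicit false

open Finset

namespace Pool.Agent.R150.Wie

/-- The distance of a finite connected graph, axiomatised. -/
structure GM {V : Type*} (d : V → V → ℕ) : Prop where
  symm : ∀ x y, d x y = d y x
  self : ∀ x, d x x = 0
  tri : ∀ x y z, d x z ≤ d x y + d y z
  nbr : ∀ x y, x ≠ y → ∃ z, d x z = 1 ∧ d x y = 1 + d z y

/-- The gain of the pair `x, y` (in this order) when the edge `u v` is deleted. -/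
def mm {V : Type*} (d' : V → V → ℕ) (u v x y : V) : ℕ := d' x y - (d' x u + 1 + d' v y)

section
variable {V : Type*} {d' : V → V → ℕ} (h' : GM d')
include h'

lemma mm_symm (u v x y : V) : mm d' u v x y = mm d' v u y x := by
  unfold mm
  rw [h'.symm x y, h'.symm x u, h'.symm v y]
  omega

lemma mm_le_left (u v x y : V) : mm d' u v x y ≤ mm d' u v x v := by
  unfold mm
  have := h'.tri x v y
  have := h'.self v
  omega

lemma mm_le_right (u v x y : V) : mm d' u v x y ≤ mm d' u v u y := by
  unfold mm
  have := h'.tri x u y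
  have := h'.self u
  omega

lemma mm_zero_or (u v x : V) : mm d' u v x v = 0 ∨ mm d' u v u x = 0 := by
  unfold mm
  have := h'.self v
  have := h'.self u
  have := h'.symm x v
  have := h'.symm x u
  omega

lemma mm_u_le (u v y : V) : mm d' u v u y ≤ d' u v - 1 := by
  unfold mm
  have := h'.tri u v y
  have := h'.self u
  omega

lemma mm_v_le (u v x : V) : mm d' u v x v ≤ d' u v - 1 := by
  unfold mm
  have := h'.tri x u v
  have := h'.self v
  omega

end

section
variable {V : Type*} [Fintype V] {d' d : V → V → ℕ} {u v : V}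

/-- The relation between the two distances. -/
def Rel (d' d : V → V → ℕ) (u v : V) : Prop :=
  ∀ x y, d x y = min (d' x y) (min (d' x u + 1 + d' v y) (d' x v + 1 + d' u y))

omit [Fintype V] in
lemma Rel.swap (hd : Rel d' d u v) : Rel d' d v u := by
  intro x y
  rw [hd x y]
  omega

omit [Fintype V] in
lemma Rel.add (h' : GM d') (hd : Rel d' d u v) (x y : V) :
    d x y + mm d' u v x y + mm d' u v y x = d' x y := by
  rw [hd x y]
  unfold mm
  have := h'.tri x u y
  have := h'.tri x v y
  have := h'.symm x y
  have := h'.symm v x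
  have := h'.symm y u
  omega

omit [Fintype V] in
lemma Rel.le (hd : Rel d' d u v) (x y : V) : d x y ≤ d' x y := by
  rw [hd x y]
  omega

/-- The eccentricity. -/
def ec (d : V → V → ℕ) (x : V) : ℕ := univ.sup (d x)

lemma le_ec (d : V → V → ℕ) (x y : V) : d x y ≤ ec d x := Finset.le_sup (f := d x) (mem_univ y)

lemma exists_star (d : V → V → ℕ) (x : V) : ∃ s, d x s = ec d x := by
  obtain ⟨s, -, hs⟩ := Finset.exists_mem_eq_sup univ ⟨x, mem_univ x⟩ (d x)
  exact ⟨s, hs.symm⟩

lemma ec_mono (hd : Rel d' d u v) (x : V) : ec d x ≤ ec d' x :=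
  Finset.sup_mono_fun fun y _ => hd.le x y

/-- The key estimate at a vertex `b` adjacent to `v`. -/
lemma nearB (h' : GM d') (hd : Rel d' d u v) (hk : 2 ≤ d' u v) (he : ∀ x, 4 ≤ ec d x)
    (b : V) (hb : d' v b = 1) (hβ : 0 < mm d' u v u b) :
    ec d' b - ec d b = 0 ∨
    (∃ a, a ≠ u ∧ ec d' b - ec d b ≤ mm d' u v a b ∧ ec d' b - ec d b + 2 ≤ mm d' u v u b) ∨
    (∃ s, s ≠ u ∧ ec d' b - ec d b ≤ mm d' u v s b ∧ d' b s = ec d' b) := by
  classical
  rcases Nat.eq_zero_or_pos (ec d' b - ec d b) with h0 | h0
  · exact Or.inl h0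
  right
  obtain ⟨s, hs⟩ := exists_star d' b
  have h1 := hd.add h' b s
  have h2 := le_ec d b s
  have h3 := mm_le_left h' u v b s
  have h4 : mm d' u v b v = 0 := by
    rcases mm_zero_or h' u v b with h | h
    · exact h
    · omega
  have h5 : ec d' b - ec d b ≤ mm d' u v s b := by omega
  by_cases hsu : s = u
  · left
    subst hsu
    have hne : s ≠ v := by
      rintro rfl
      have := h'.self s
      omega
    obtain ⟨c, hc1, hc2⟩ := h'.nbr s v hne
    refine ⟨c, ?_, ?_⟩
    · rintro rfl
      have := h'.self c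
      omega
    · have h6 := he b
      have h7 := h'.tri s c b
      have h8 := h'.symm b s
      have h9 := h'.symm c s
      have h10 := h'.self s
      unfold mm at *
      omega
  · right
    exact ⟨s, hsu, h5, hs⟩

/-- If the eccentricity of `u` increases, then either by at most `k - 4`, or there is a neighbour
`b` of `v` with a large gain. -/
lemma atU (h' : GM d') (hd : Rel d' d u v) (he : ∀ x, 4 ≤ ec d x) (hk : 2 ≤ d' u v)
    (h0 : 0 < ec d' u - ec d u) :
    (ec d' u - ec d u) + 4 ≤ d' u v ∨
    ∃ b, d' v b = 1 ∧ ec d' u - ec d u ≤ mm d' u v u b := by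
  classical
  obtain ⟨s, hs⟩ := exists_star d' u
  have h1 := hd.add h' u s
  have h2 := le_ec d u s
  have h3 := mm_le_right h' u v s u
  have h4 : mm d' u v u u = 0 := by
    unfold mm
    have := h'.self u
    omega
  have h5 : ec d' u - ec d u ≤ mm d' u v u s := by omega
  by_cases hsv : s = v
  · left
    subst hsv
    have := he u
    omega
  · right
    obtain ⟨b, hb1, hb2⟩ := h'.nbr v s (Ne.symm hsv)
    refine ⟨b, hb1, h5.trans ?_⟩
    have h6 := h'.tri u b s
    have h7 := h'.self u
    unfold mm
    omega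


section Main
variable [DecidableEq V]

/-- The slack at `x`. -/
def gg (d' d : V → V → ℕ) (u v x : V) : ℕ :=
  mm d' u v x v + mm d' u v u x - (ec d' x - ec d x)

omit [DecidableEq V] in
lemma delta_le (h' : GM d') (hd : Rel d' d u v) (x : V) :
    ec d' x - ec d x ≤ mm d' u v x v + mm d' u v u x := by
  obtain ⟨s, hs⟩ := exists_star d' x
  have h1 := hd.add h' x s
  have h2 := le_ec d x s
  have h3 := mm_le_left h' u v x s
  have h4 := mm_le_right h' u v s x
  omega

/-- The main combinatorial estimate. -/
lemma core (h' : GM d') (hd : Rel d' d u v) (hk : 2 ≤ d' u v) (he : ∀ x, 4 ≤ ec d x)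
    (H : ∀ (s : Finset V) (q : Finset (V × V)), (∀ p ∈ q, p.1 ≠ u ∧ p.2 ≠ v) →
      ∑ x ∈ s, gg d' d u v x + ∑ p ∈ q, mm d' u v p.1 p.2 ≤ d' u v - 1) : False := by
  have hsvu : d' v u = d' u v := h'.symm v u
  have huu := h'.self u
  have hvv := h'.self v
  have hne : u ≠ v := by
    rintro rfl
    omega
  have hsw : ∀ x y, mm d' v u y x = mm d' u v x y := fun x y => (mm_symm h' u v x y).symm
  have hd2 : Rel d' d v u := hd.swap
  -- values at `u` and `v`
  have mu1 : mm d' u v u v = d' u v - 1 := by unfold mm; omega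
  have mu2 : mm d' u v u u = 0 := by unfold mm; omega
  have mv2 : mm d' u v v v = 0 := by unfold mm; omega
  have gu : gg d' d u v u + (ec d' u - ec d u) = d' u v - 1 := by
    have := delta_le h' hd u
    unfold gg
    omega
  have gv : gg d' d u v v + (ec d' v - ec d v) = d' u v - 1 := by
    have := delta_le h' hd v
    unfold gg
    omega
  -- the two one-sided estimates
  have KB : ∀ b, d' v b = 1 → 0 < mm d' u v u b →
      (mm d' u v u b ≤ gg d' d u v b ∧ ec d' b - ec d b = 0) ∨
      (∃ a, a ≠ u ∧ ec d' b - ec d b ≤ mm d' u v a b ∧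
        mm d' u v u b ≤ gg d' d u v b + mm d' u v a b ∧
        (ec d' b - ec d b + 2 ≤ mm d' u v u b ∨ d' b a = ec d' b)) := by
    intro b hb hβ
    rcases nearB h' hd hk he b hb hβ with h | ⟨a, h1, h2, h3⟩ | ⟨a, h1, h2, h3⟩
    · left
      refine ⟨?_, h⟩
      unfold gg
      omega
    · right
      refine ⟨a, h1, h2, ?_, Or.inl h3⟩
      unfold gg
      omega
    · right
      refine ⟨a, h1, h2, ?_, Or.inr h3⟩
      unfold gg
      omega
  have KA : ∀ a, d' u a = 1 → 0 < mm d' u v a v →
      (mm d' u v a v ≤ gg d' d u v a ∧ ec d' a - ec d a = 0) ∨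
      (∃ b, b ≠ v ∧ ec d' a - ec d a ≤ mm d' u v a b ∧
        mm d' u v a v ≤ gg d' d u v a + mm d' u v a b ∧
        (ec d' a - ec d a + 2 ≤ mm d' u v a v ∨ d' a b = ec d' a)) := by
    intro a ha hα
    have hk2 : 2 ≤ d' v u := by omega
    rcases nearB h' hd2 hk2 he a ha (by rw [hsw]; exact hα) with h | ⟨b, h1, h2, h3⟩ | ⟨b, h1, h2, h3⟩
    · left
      refine ⟨?_, h⟩
      unfold gg
      omega
    · right
      rw [hsw] at h2 h3
      refine ⟨b, h1, h2, ?_, Or.inl h3⟩
      unfold gg
      omega
    · right
      rw [hsw] at h2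
      refine ⟨b, h1, h2, ?_, Or.inr h3⟩
      unfold gg
      omega
  have LU : ∀ _ : Unit, 0 < ec d' u - ec d u → (ec d' u - ec d u) + 4 ≤ d' u v ∨
    ∃ b, d' v b = 1 ∧ ec d' u - ec d u ≤ mm d' u v u b := fun _ => atU h' hd he hk
  have LV : ∀ _ : Unit, 0 < ec d' v - ec d v → (ec d' v - ec d v) + 4 ≤ d' u v ∨
      ∃ a, d' u a = 1 ∧ ec d' v - ec d v ≤ mm d' u v a v := by
    intro _ h0
    have hk2 : 2 ≤ d' v u := by omega
    rcases atU h' hd2 he hk2 h0 with h | ⟨a, h1, h2⟩
    · left; omega
    · right
      rw [hsw] at h2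
      exact ⟨a, h1, h2⟩
  -- distinctness
  have neB : ∀ b, d' v b = 1 → b ≠ u ∧ b ≠ v := by
    intro b hb
    constructor
    · rintro rfl; omega
    · rintro rfl; omega
  have neA : ∀ a, d' u a = 1 → a ≠ u ∧ a ≠ v := by
    intro a ha
    constructor
    · rintro rfl; omega
    · rintro rfl; omega
  have H0 : gg d' d u v u + gg d' d u v v ≤ d' u v - 1 := by
    have := H {u, v} ∅ (by simp)
    rw [sum_pair hne] at this
    simpa using this
  -- bound with b
  have HB : ∀ b, d' v b = 1 → 0 < mm d' u v u b →
      gg d' d u v u + gg d' d u v v + mm d' u v u b ≤ d' u v - 1 := by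
    intro b hb hβ
    obtain ⟨hbu, hbv⟩ := neB b hb
    rcases KB b hb hβ with ⟨h1, -⟩ | ⟨a, h1, -, h2, -⟩
    · have := H {u, v, b} ∅ (by simp)
      rw [sum_insert (by simp [hne, Ne.symm hbu]), sum_pair (Ne.symm hbv)] at this
      simp only [sum_empty] at this
      omega
    · have := H {u, v, b} {(a, b)} (by simp [h1, hbv])
      rw [sum_insert (by simp [hne, Ne.symm hbu]), sum_pair (Ne.symm hbv), sum_singleton] at this
      simp only at this
      omega
  have HA : ∀ a, d' u a = 1 → 0 < mm d' u v a v →
      gg d' d u v u + gg d' d u v v + mm d' u v a v ≤ d' u v - 1 := by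
    intro a ha hα
    obtain ⟨hau, hav⟩ := neA a ha
    rcases KA a ha hα with ⟨h1, -⟩ | ⟨b, h1, -, h2, -⟩
    · have := H {u, v, a} ∅ (by simp)
      rw [sum_insert (by simp [hne, Ne.symm hau]), sum_pair (Ne.symm hav)] at this
      simp only [sum_empty] at this
      omega
    · have := H {u, v, a} {(a, b)} (by simp [h1, hau])
      rw [sum_insert (by simp [hne, Ne.symm hau]), sum_pair (Ne.symm hav), sum_singleton] at this
      simp only at this
      omega
  rcases Nat.eq_zero_or_pos (ec d' u - ec d u) with hDu | hDu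
  · -- `D_u = 0`
    have hDv : 0 < ec d' v - ec d v := by omega
    rcases LV () hDv with h | ⟨a, ha, h⟩
    · omega
    · have := HA a ha (by omega)
      omega
  rcases Nat.eq_zero_or_pos (ec d' v - ec d v) with hDv | hDv
  · rcases LU () hDu with h | ⟨b, hb, h⟩
    · omega
    · have := HB b hb (by omega)
      omega
  rcases LU () hDu with hU | ⟨b, hb, hU⟩
  · rcases LV () hDv with hV | ⟨a, ha, hV⟩
    · obtain ⟨c, hc1, hc2⟩ := h'.nbr u v hne
      have hcv : v ≠ c := by
        rintro rfl
        omega
      obtain ⟨w, hw1, hw2⟩ := h'.nbr v c hcv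
      have h1 := (neA c hc1).1
      have h2 := (neB w hw1).2
      have := H {u, v} {(c, w)} (by simp [h1, h2])
      rw [sum_pair hne, sum_singleton] at this
      have h3 := h'.symm v c
      have h4 := h'.symm w c
      have h5 := h'.symm c u
      have h6 : mm d' u v c w = d' c w - (d' c u + 1 + d' v w) := rfl
      simp only at this
      omega
    · have := HA a ha (by omega)
      omega
  · rcases LV () hDv with hV | ⟨a, ha, hV⟩
    · have := HB b hb (by omega)
      omega
    · have hA := HA a ha (by omega)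
      have hB := HB b hb (by omega)
      have hA2 := mm_v_le h' u v a
      have hB2 := mm_u_le h' u v b
      obtain ⟨hau, hav⟩ := neA a ha
      obtain ⟨hbu, hbv⟩ := neB b hb
      have hab : a ≠ b := by
        rintro rfl
        rcases mm_zero_or h' u v a with h | h <;> omega
      -- `g b = 0`
      have gb : gg d' d u v b = 0 := by
        rcases KA a ha (by omega) with ⟨h1, -⟩ | ⟨t, h1, -, h2, -⟩
        · have := H {a, b} ∅ (by simp)
          rw [sum_pair hab] at this
          simp only [sum_empty] at this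
          omega
        · have := H {a, b} {(a, t)} (by simp [h1, hau])
          rw [sum_pair hab, sum_singleton] at this
          simp only at this
          omega
      have ga : gg d' d u v a = 0 := by
        rcases KB b hb (by omega) with ⟨h1, -⟩ | ⟨t, h1, -, h2, -⟩
        · have := H {a, b} ∅ (by simp)
          rw [sum_pair hab] at this
          simp only [sum_empty] at this
          omega
        · have := H {a, b} {(t, b)} (by simp [h1, hbv])
          rw [sum_pair hab, sum_singleton] at this
          simp only at this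
          omega
      have zb : mm d' u v b v = 0 := by
        rcases mm_zero_or h' u v b with h | h <;> omega
      have za : mm d' u v u a = 0 := by
        rcases mm_zero_or h' u v a with h | h <;> omega
      have db : ec d' b - ec d b = d' u v - 1 := by
        have := delta_le h' hd b
        unfold gg at gb
        omega
      have da : ec d' a - ec d a = d' u v - 1 := by
        have := delta_le h' hd a
        unfold gg at ga
        omega
      rcases KB b hb (by omega) with ⟨-, h1⟩ | ⟨s, hs1, hs2, -, hs3⟩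
      · omega
      rcases KA a ha (by omega) with ⟨-, h1⟩ | ⟨t, ht1, ht2, -, ht3⟩
      · omega
      by_cases hpair : (s, b) = (a, t)
      · obtain ⟨rfl, rfl⟩ := Prod.mk.inj hpair
        rcases hs3 with h | h
        · omega
        rcases ht3 with h3 | h3
        · omega
        have h4 := mm_le_left h' u v s b
        have h5 := he s
        have h6 := h'.symm s u
        have h7 : mm d' u v s b = d' s b - (d' s u + 1 + d' v b) := rfl
        omega
      · have := H ∅ {(s, b), (a, t)} (by
          intro p hp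
          simp only [mem_insert, mem_singleton] at hp
          rcases hp with rfl | rfl
          · exact ⟨hs1, hbv⟩
          · exact ⟨hau, ht1⟩)
        rw [sum_pair hpair] at this
        simp only [sum_empty] at this
        omega

/-- Deleting the edge `u v` increases the Wiener index minus the total eccentricity. -/
theorem partA (h' : GM d') (hd : Rel d' d u v) (hk : 2 ≤ d' u v) (he : ∀ x, 4 ≤ ec d x) :
    (∑ x, ∑ y, d x y) + 2 * ∑ x, ec d' x < (∑ x, ∑ y, d' x y) + 2 * ∑ x, ec d x := by
  have huu := h'.self u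
  have hvv := h'.self v
  have mu1 : mm d' u v u v = d' u v - 1 := by unfold mm; omega
  have h1 : ∑ x, ∑ y, d' x y = (∑ x, ∑ y, d x y) + 2 * ∑ x, ∑ y, mm d' u v x y := by
    have e1 : ∑ x, ∑ y, d' x y =
        ∑ x, ∑ y, (d x y + mm d' u v x y + mm d' u v y x) :=
      sum_congr rfl fun x _ => sum_congr rfl fun y _ => (hd.add h' x y).symm
    rw [e1]
    simp only [sum_add_distrib]
    rw [sum_comm (f := fun x y => mm d' u v y x)]
    ring
  have h2 : ∑ x, ec d' x = ∑ x, ec d x + ∑ x, (ec d' x - ec d x) := by
    rw [← sum_add_distrib]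
    refine sum_congr rfl fun x _ => ?_
    have := ec_mono hd x
    omega
  have h3 : ∑ x, mm d' u v x v + ∑ x, mm d' u v u x =
      ∑ x, gg d' d u v x + ∑ x, (ec d' x - ec d x) := by
    rw [← sum_add_distrib, ← sum_add_distrib]
    refine sum_congr rfl fun x _ => ?_
    have := delta_le h' hd x
    unfold gg
    omega
  set SP := ∑ x ∈ univ.erase u, ∑ y ∈ univ.erase v, mm d' u v x y with hSP
  have h4 : ∑ x, ∑ y, mm d' u v x y + mm d' u v u v =
      ∑ x, mm d' u v x v + ∑ x, mm d' u v u x + SP := by
    rw [← add_sum_erase univ (fun x => ∑ y, mm d' u v x y) (mem_univ u),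
      ← add_sum_erase univ (fun x => mm d' u v x v) (mem_univ u)]
    have : ∑ x ∈ univ.erase u, ∑ y, mm d' u v x y =
        ∑ x ∈ univ.erase u, mm d' u v x v + SP := by
      rw [hSP, ← sum_add_distrib]
      refine sum_congr rfl fun x _ => ?_
      rw [add_sum_erase univ (fun y => mm d' u v x y) (mem_univ v)]
    rw [this]
    ring
  by_contra hcon
  refine core h' hd hk he ?_
  intro s q hq
  have h5 : ∑ x ∈ s, gg d' d u v x ≤ ∑ x, gg d' d u v x :=
    sum_le_sum_of_subset (subset_univ s)
  have h6 : ∑ p ∈ q, mm d' u v p.1 p.2 ≤ SP := by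
    rw [hSP, ← sum_product' (univ.erase u) (univ.erase v) (fun x y => mm d' u v x y)]
    refine sum_le_sum_of_subset ?_
    intro p hp
    obtain ⟨ha, hb⟩ := hq p hp
    simp [ha, hb]
  omega

end Main

end

end Pool.Agent.R150.Wie
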