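import Pool.Agent.R150.WieA

/-!
# Wiener index minus total eccentricity: trees (metric part)
-/

set_option autoImplicit false

open Finset

namespace Pool.Agent.R150.Wie

/-! ### The values of the path -/

/-- `∑_{i,j<n} |i-j|` -/
def pw (n : ℕ) : ℕ := ∑ i ∈ range n, ∑ j ∈ range n, ((i - j) + (j - i))

/-- `∑_{i<n} max(i, n-1-i)` -/
def pe (n : ℕ) : ℕ := ∑ i ∈ range n, max i (n - 1 - i)

lemma gsum (a b : ℕ) :
    2 * ∑ i ∈ range (a + b + 1), ((i - a) + (a - i)) = a * (a + 1) + b * (b + 1) := by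
  induction b with
  | zero =>
    induction a with
    | zero => simp
    | succ a ih =>
      rw [Finset.sum_range_succ']
      have h : ∀ i, (i + 1 - (a + 1)) + ((a + 1) - (i + 1)) = (i - a) + (a - i) := by
        intro i; omega
      simp only [h]
      simp only [Nat.add_zero] at ih ⊢
      rw [mul_add, ih]
      simp only [Nat.zero_sub, Nat.sub_zero, Nat.zero_add]
      ring
  | succ b ih =>
    rw [show a + (b + 1) + 1 = (a + b + 1) + 1 from rfl, Finset.sum_range_succ, mul_add, ih]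
    have h : (a + b + 1 - a) + (a - (a + b + 1)) = b + 1 := by omega
    rw [h]
    ring

lemma pw_succ (n : ℕ) : pw (n + 1) = pw n + n * (n + 1) := by
  unfold pw
  rw [Finset.sum_range_succ]
  have h1 : ∀ i ∈ range n, ∑ j ∈ range (n + 1), ((i - j) + (j - i)) =
      ∑ j ∈ range n, ((i - j) + (j - i)) + ((i - n) + (n - i)) := by
    intro i _
    rw [Finset.sum_range_succ]
  rw [Finset.sum_congr rfl h1, Finset.sum_add_distrib]
  have h2 := gsum n 0
  simp only [Nat.add_zero, Nat.zero_mul] at h2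
  have h3 : ∑ j ∈ range (n + 1), ((n - j) + (j - n)) = ∑ j ∈ range (n + 1), ((j - n) + (n - j)) :=
    Finset.sum_congr rfl fun j _ => by omega
  have h4 : ∑ i ∈ range n, ((i - n) + (n - i)) = ∑ j ∈ range (n + 1), ((j - n) + (n - j)) := by
    rw [Finset.sum_range_succ]
    simp
  rw [h3, h4]
  omega

lemma pw_closed (n : ℕ) : 3 * (pw n : ℤ) = (n : ℤ) ^ 3 - n := by
  induction n with
  | zero => simp [pw]
  | succ n ih =>
    rw [pw_succ]
    push_cast
    linarith

lemma pe_step (n : ℕ) : pe (n + 2) = pe n + 3 * n + 2 := by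
  unfold pe
  rw [Finset.sum_range_succ, Finset.sum_range_succ']
  have h1 : ∀ i ∈ range n, max (i + 1) (n + 2 - 1 - (i + 1)) = max i (n - 1 - i) + 1 := by
    intro i hi
    rw [Finset.mem_range] at hi
    omega
  rw [Finset.sum_congr rfl h1, Finset.sum_add_distrib]
  simp only [sum_const, card_range, smul_eq_mul, mul_one]
  omega

lemma pe_closed (n : ℕ) : 4 * (pe n : ℤ) = 3 * (n : ℤ) ^ 2 - 2 * n - ((n % 2 : ℕ) : ℤ) := by
  induction n using Nat.strong_induction_on with
  | _ n ih =>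
    rcases n with _ | _ | n
    · simp [pe]
    · simp [pe]
    · rw [pe_step]
      have h1 := ih n (by omega)
      have h2 : (n + 1 + 1) % 2 = n % 2 := by omega
      rw [h2]
      push_cast at h1 ⊢
      linarith

/-- Twice the value of `W - ε` at the path on `n` vertices. -/
def F2 (n : ℕ) : ℤ := (pw n : ℤ) - 2 * pe n

lemma F2_step (k : ℕ) : ((k + 1 : ℕ) : ℤ) ^ 2 - 4 * ((k + 1 : ℕ) : ℤ) + 2 ≤ F2 (k + 1) - F2 k := by
  have h1 := pw_closed (k + 1)
  have h2 := pw_closed k
  have h3 := pe_closed (k + 1)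
  have h4 := pe_closed k
  unfold F2
  push_cast at *
  have h5 : ((k : ℤ) + 1) % 2 - (k : ℤ) % 2 = 1 ∨ ((k : ℤ) + 1) % 2 - (k : ℤ) % 2 = -1 := by omega
  have h6 : 3 * ((pw (k + 1) : ℤ) - pw k) = 3 * ((k : ℤ) ^ 2 + k) := by linarith
  have h7 : (pw (k + 1) : ℤ) - pw k = (k : ℤ) ^ 2 + k := by linarith
  have h8 : 4 * ((pe (k + 1) : ℤ) - pe k) = 6 * k + 1 - (((k : ℤ) + 1) % 2 - (k : ℤ) % 2) := by
    linarith
  rcases h5 with h5 | h5 <;> rw [h5] at h8 <;> linarith

/-! ### Sets with a path-like metric -/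

section pathlike
variable {V : Type*} {d : V → V → ℕ}

/-- `∑_{a,b∈S} d(a,b)` -/
def W2 (d : V → V → ℕ) (S : Finset V) : ℕ := ∑ a ∈ S, ∑ b ∈ S, d a b

/-- `∑_{a∈S} max_{b∈S} d(a,b)` -/
def E1 (d : V → V → ℕ) (S : Finset V) : ℕ := ∑ a ∈ S, S.sup (d a)

lemma pathlike_sum {S : Finset V} {ψ : V → ℕ} {n : ℕ} (hmaps : ∀ a ∈ S, ψ a < n)
    (hinj : ∀ a ∈ S, ∀ b ∈ S, ψ a = ψ b → a = b) (hsurj : ∀ i < n, ∃ a ∈ S, ψ a = i)
    (F : ℕ → ℕ) : ∑ a ∈ S, F (ψ a) = ∑ i ∈ range n, F i := by
  refine Finset.sum_nbij ψ ?_ ?_ ?_ ?_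
  · intro a ha
    exact mem_range.2 (hmaps a ha)
  · intro a ha b hb hab
    exact hinj a ha b hb hab
  · intro i hi
    obtain ⟨a, ha, hai⟩ := hsurj i (by simpa using hi)
    exact ⟨a, ha, hai⟩
  · intro a _
    rfl

lemma pathlike_W2 {S : Finset V} {ψ : V → ℕ} {n : ℕ} (hmaps : ∀ a ∈ S, ψ a < n)
    (hinj : ∀ a ∈ S, ∀ b ∈ S, ψ a = ψ b → a = b) (hsurj : ∀ i < n, ∃ a ∈ S, ψ a = i)
    (hd : ∀ a ∈ S, ∀ b ∈ S, d a b = (ψ a - ψ b) + (ψ b - ψ a)) : W2 d S = pw n := by
  unfold W2 pw
  rw [← pathlike_sum hmaps hinj hsurj (fun i => ∑ j ∈ range n, ((i - j) + (j - i)))]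
  refine sum_congr rfl fun a ha => ?_
  rw [← pathlike_sum hmaps hinj hsurj (fun j => (ψ a - j) + (j - ψ a))]
  exact sum_congr rfl fun b hb => hd a ha b hb

lemma pathlike_E1 {S : Finset V} {ψ : V → ℕ} {n : ℕ} (hn : 0 < n) (hmaps : ∀ a ∈ S, ψ a < n)
    (hinj : ∀ a ∈ S, ∀ b ∈ S, ψ a = ψ b → a = b) (hsurj : ∀ i < n, ∃ a ∈ S, ψ a = i)
    (hd : ∀ a ∈ S, ∀ b ∈ S, d a b = (ψ a - ψ b) + (ψ b - ψ a)) : E1 d S = pe n := by
  unfold E1 pe
  rw [← pathlike_sum hmaps hinj hsurj (fun i => max i (n - 1 - i))]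
  refine sum_congr rfl fun a ha => ?_
  apply le_antisymm
  · refine Finset.sup_le fun b hb => ?_
    rw [hd a ha b hb]
    have := hmaps a ha
    have := hmaps b hb
    omega
  · obtain ⟨x, hx, hx0⟩ := hsurj 0 hn
    obtain ⟨y, hy, hy0⟩ := hsurj (n - 1) (by omega)
    have h1 := hd a ha x hx
    have h2 := hd a ha y hy
    have h3 : d a x ≤ S.sup (d a) := Finset.le_sup (f := d a) hx
    have h4 : d a y ≤ S.sup (d a) := Finset.le_sup (f := d a) hy
    have := hmaps a ha
    omega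

end pathlike

/-! ### Tree metrics -/

/-- The distance of a finite tree, axiomatised. -/
structure TM {V : Type*} (d : V → V → ℕ) : Prop extends GM d where
  t2 : ∀ x c y w, d x c + d c y = d x y → d w c + d c x = d w x ∨ d w c + d c y = d w y
  t3 : ∀ u v w, d u v = 1 → d w u ≠ d w v

section tree
variable {V : Type*} {d : V → V → ℕ}

lemma GM.eq_of_zero (h : GM d) {x y : V} (hxy : d x y = 0) : x = y := by
  by_contra hne
  obtain ⟨z, _, h2⟩ := h.nbr x y hne
  omega

lemma GM.geo (h : GM d) (x y : V) (i : ℕ) (hi : i ≤ d x y) :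
    ∃ c, d x c = i ∧ d c y = d x y - i := by
  induction i with
  | zero => exact ⟨x, h.self x, by omega⟩
  | succ i ih =>
    obtain ⟨c, hc1, hc2⟩ := ih (by omega)
    have hcy : c ≠ y := by
      rintro rfl
      have := h.self c
      omega
    obtain ⟨z, hz1, hz2⟩ := h.nbr c y hcy
    have h1 := h.tri x c z
    have h2 := h.tri x z y
    exact ⟨z, by omega, by omega⟩

variable [Fintype V]

/-- The points between `x` and `y`. -/
def Pt (d : V → V → ℕ) (x y : V) : Finset V := univ.filter fun c => d x c + d c y = d x y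

lemma mem_Pt {x y c : V} : c ∈ Pt d x y ↔ d x c + d c y = d x y := by simp [Pt]

lemma Pt_dist (h : TM d) {x y a b : V} (ha : a ∈ Pt d x y) (hb : b ∈ Pt d x y) :
    d a b = (d x a - d x b) + (d x b - d x a) := by
  rw [mem_Pt] at ha hb
  have h1 := h.t2 x a y b ha
  have h2 := h.symm a b
  have h3 := h.symm a x
  have h4 := h.symm b x
  omega

lemma Pt_maps {x y : V} : ∀ a ∈ Pt d x y, d x a < d x y + 1 := by
  intro a ha
  rw [mem_Pt] at ha
  omega

lemma Pt_inj (h : TM d) {x y : V} : ∀ a ∈ Pt d x y, ∀ b ∈ Pt d x y, d x a = d x b → a = b := by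
  intro a ha b hb hab
  have h1 := Pt_dist h ha hb
  exact h.eq_of_zero (by omega)

lemma Pt_surj (h : TM d) {x y : V} : ∀ i < d x y + 1, ∃ a ∈ Pt d x y, d x a = i := by
  intro i hi
  obtain ⟨c, h1, h2⟩ := h.toGM.geo x y i (by omega)
  exact ⟨c, mem_Pt.2 (by omega), h1⟩

lemma Pt_sum (h : TM d) (x y : V) (F : ℕ → ℕ) :
    ∑ a ∈ Pt d x y, F (d x a) = ∑ i ∈ range (d x y + 1), F i :=
  pathlike_sum Pt_maps (Pt_inj h) (Pt_surj h) F

lemma Pt_card (h : TM d) (x y : V) : (Pt d x y).card = d x y + 1 := by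
  have := Pt_sum h x y (fun _ => 1)
  simpa using this

lemma Pt_W2 (h : TM d) (x y : V) : W2 d (Pt d x y) = pw (d x y + 1) :=
  pathlike_W2 Pt_maps (Pt_inj h) (Pt_surj h) fun _ ha _ hb => Pt_dist h ha hb

lemma Pt_E1 (h : TM d) (x y : V) : E1 d (Pt d x y) = pe (d x y + 1) :=
  pathlike_E1 (by omega) Pt_maps (Pt_inj h) (Pt_surj h) fun _ ha _ hb => Pt_dist h ha hb

/-- Projection to `Pt d x y`. -/
lemma proj (h : TM d) {x y z : V} {c : V} (hc : c ∈ Pt d x y)
    (hmin : ∀ c' ∈ Pt d x y, d z c ≤ d z c') : d z y = d z c + d c y := by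
  rw [mem_Pt] at hc
  rcases Nat.eq_zero_or_pos (d c y) with h0 | h0
  · have := h.toGM.eq_of_zero h0
    subst this
    omega
  · have hcy : c ≠ y := by
      rintro rfl
      have := h.self c
      omega
    obtain ⟨c1, h1, h2⟩ := h.nbr c y hcy
    have h3 := h.tri x c c1
    have h4 := h.tri x c1 y
    have hc1 : c1 ∈ Pt d x y := by
      rw [mem_Pt]
      omega
    have h5 := hmin c1 hc1
    have h6 := h.t3 c c1 z h1
    have h7 := h.tri z c c1
    have h8 := h.t2 c c1 y z (by omega)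
    have h9 := h.symm c1 c
    omega

lemma Pt_symm (h : TM d) (x y : V) : Pt d x y = Pt d y x := by
  ext c
  rw [mem_Pt, mem_Pt, h.symm x c, h.symm c y, h.symm x y, add_comm]

lemma proj_all (h : TM d) {x y z : V} {c : V} (hc : c ∈ Pt d x y)
    (hmin : ∀ c' ∈ Pt d x y, d z c ≤ d z c') (c' : V) (hc' : c' ∈ Pt d x y) :
    d z c' = d z c + ((d x c' - d x c) + (d x c - d x c')) := by
  have h1 := proj h hc hmin
  have h2 : d z x = d z c + d c x := by
    have hc2 := hc
    rw [Pt_symm h] at hc2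
    refine proj h hc2 ?_
    intro c' hc'
    rw [Pt_symm h] at hc'
    exact hmin c' hc'
  have h3 := Pt_dist h hc hc'
  have h4 := h.t2 x c' y z (mem_Pt.1 hc')
  have h5 := mem_Pt.1 hc
  have h6 := mem_Pt.1 hc'
  have h7 := h.symm c' x
  have h8 := h.symm c x
  have h9 := h.tri z c c'
  have h10 := hmin c' hc'
  omega

/-! ### The induction -/

lemma arith {a b p m e s2 n : ℤ} (hp : 1 ≤ p) (hpa : p ≤ a) (hab : a ≤ b) (hD : 7 ≤ a + b)
    (hm : 0 ≤ m) (he1 : p + b ≤ e) (he2 : e ≤ a + b)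
    (hs : s2 ≤ 2 * ((a + b + 1) * p) + (a * (a + 1) + b * (b + 1)) + p * (p - 1) + 2 * (m * e))
    (hn : n = a + b + 1 + p + m) : s2 - 2 * e + 1 ≤ n ^ 2 - 4 * n + 2 := by
  subst hn
  rcases eq_or_lt_of_le hm with hm | hm
  · subst hm
    rcases eq_or_lt_of_le (show 1 ≤ a by linarith) with ha | ha
    · subst ha
      have : p = 1 := by linarith
      subst this
      nlinarith
    · nlinarith [mul_nonneg (show 0 ≤ a - 2 by linarith) (show 0 ≤ b - 4 by linarith)]
  · have h1 : (m - 1) * e ≤ (m - 1) * (a + b) :=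
      mul_le_mul_of_nonneg_left he2 (by linarith)
    have h2 : 0 ≤ (m - 1) * (p - 1) := mul_nonneg (by linarith) (by linarith)
    rcases eq_or_lt_of_le (show 1 ≤ a by linarith) with ha | ha
    · subst ha
      have : p = 1 := by linarith
      subst this
      nlinarith [sq_nonneg (m - 1)]
    · nlinarith [mul_nonneg (show 0 ≤ a - 2 by linarith) (show 0 ≤ b - 4 by linarith),
        sq_nonneg (m - 1)]

variable [DecidableEq V]

/-- A convex set. -/
def Conv (d : V → V → ℕ) (S : Finset V) : Prop :=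
  ∀ x ∈ S, ∀ y ∈ S, ∀ c, d x c + d c y = d x y → c ∈ S

lemma sigma_bound (h : TM d) {S : Finset V} (hS : Conv d S) {x y z : V} (hx : x ∈ S) (hy : y ∈ S)
    (hz : z ∈ S) (hzP : z ∉ Pt d x y) (hdiam : ∀ a ∈ S, ∀ b ∈ S, d a b ≤ d x y)
    (hD : 7 ≤ d x y) :
    2 * ((∑ w ∈ S, d z w : ℕ) : ℤ) - 2 * ((S.sup (d z) : ℕ) : ℤ) + 1 ≤
      (S.card : ℤ) ^ 2 - 4 * S.card + 2 := by
  have hxP : x ∈ Pt d x y := by
    rw [mem_Pt, h.self x]; omega
  have hyP : y ∈ Pt d x y := by
    rw [mem_Pt, h.self y]; omega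
  obtain ⟨c, hc, hmin⟩ := Finset.exists_min_image (Pt d x y) (d z) ⟨x, hxP⟩
  have hall := proj_all h hc hmin
  have hcx := hall x hxP
  have hcy := hall y hyP
  have hxx := h.self x
  have hyy := h.self y
  have hPS : Pt d x y ⊆ S := by
    intro w hw
    exact hS x hx y hy w (mem_Pt.1 hw)
  have hcS : c ∈ S := hPS hc
  set p := d z c with hp
  set a := d x c with ha
  set b := d c y with hb
  have hab : a + b = d x y := mem_Pt.1 hc
  have hp1 : 1 ≤ p := by
    by_contra hcon
    have h0 : d z c = 0 := by omega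
    rw [h.toGM.eq_of_zero h0] at hzP
    exact hzP hc
  -- the set `Q`
  set Q := (Pt d z c).erase c with hQ
  have hQS : Q ⊆ S := by
    intro w hw
    rw [hQ, mem_erase] at hw
    exact hS z hz c hcS w (mem_Pt.1 hw.2)
  have hcQ : c ∈ Pt d z c := by
    rw [mem_Pt, h.self c]; omega
  have hdisj : Disjoint (Pt d x y) Q := by
    rw [Finset.disjoint_left]
    intro w hw hwQ
    rw [hQ, mem_erase, mem_Pt] at hwQ
    have h1 := hmin w hw
    have h2 : d w c = 0 := by omega
    exact hwQ.1 (h.toGM.eq_of_zero h2)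
  have hcardP : (Pt d x y).card = a + b + 1 := by rw [Pt_card h, hab]
  have hcardQ : Q.card = p := by
    rw [hQ, card_erase_of_mem hcQ, Pt_card h]
    omega
  have hsumQ : 2 * ∑ w ∈ Q, d z w + 2 * p = p * (p + 1) := by
    have h1 : ∑ w ∈ Q, d z w + d z c = ∑ w ∈ Pt d z c, d z w := by
      rw [hQ]
      exact sum_erase_add _ _ hcQ
    have h2 : ∑ w ∈ Pt d z c, d z w = ∑ i ∈ range (p + 1), i := Pt_sum h z c (fun i => i)
    have h3 := gsum 0 p
    simp only [Nat.zero_add, Nat.zero_mul, Nat.sub_zero, Nat.zero_sub, Nat.add_zero] at h3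
    rw [← h3, ← h2, ← h1]
    ring
  have hsumP : 2 * ∑ w ∈ Pt d x y, d z w = 2 * ((a + b + 1) * p) + (a * (a + 1) + b * (b + 1)) := by
    have h1 : ∑ w ∈ Pt d x y, d z w = ∑ w ∈ Pt d x y, (p + ((d x w - a) + (a - d x w))) :=
      sum_congr rfl fun w hw => hall w hw
    rw [h1, Pt_sum h x y (fun i => p + ((i - a) + (a - i))), sum_add_distrib, sum_const, card_range,
      smul_eq_mul, mul_add, ← hab, gsum a b]
  set R := S \ (Pt d x y ∪ Q) with hR
  have hPQS : Pt d x y ∪ Q ⊆ S := union_subset hPS hQS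
  have hcardS : S.card = a + b + 1 + p + R.card := by
    have h1 : R.card + (Pt d x y ∪ Q).card = S.card := card_sdiff_add_card_eq_card hPQS
    rw [card_union_of_disjoint hdisj, hcardP, hcardQ] at h1
    omega
  have hsumR : ∑ w ∈ R, d z w ≤ R.card * S.sup (d z) := by
    rw [← smul_eq_mul]
    refine Finset.sum_le_card_nsmul _ _ _ fun w hw => ?_
    rw [hR, mem_sdiff] at hw
    exact Finset.le_sup (f := d z) hw.1
  have hsumS : ∑ w ∈ S, d z w = ∑ w ∈ R, d z w + (∑ w ∈ Pt d x y, d z w + ∑ w ∈ Q, d z w) := by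
    rw [← sum_union hdisj, hR, sum_sdiff hPQS]
  have he2 : S.sup (d z) ≤ d x y := Finset.sup_le fun w hw => hdiam z hz w hw
  have hex : d z x ≤ S.sup (d z) := Finset.le_sup (f := d z) hx
  have hey : d z y ≤ S.sup (d z) := Finset.le_sup (f := d z) hy
  set e := S.sup (d z) with he
  have key : 2 * ∑ w ∈ S, d z w ≤
      2 * ((a + b + 1) * p) + (a * (a + 1) + b * (b + 1)) + 2 * (R.card * e) +
        2 * ∑ w ∈ Q, d z w := by
    rw [hsumS]
    omega
  have key2 : (2 * ((∑ w ∈ S, d z w : ℕ) : ℤ)) ≤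
      2 * (((a : ℤ) + b + 1) * p) + ((a : ℤ) * (a + 1) + b * (b + 1)) + p * ((p : ℤ) - 1) +
        2 * ((R.card : ℤ) * e) := by
    zify at key hsumQ ⊢
    linarith
  have hcx' : p + a ≤ e := by omega
  have hcy' : p + b ≤ e := by omega
  clear_value p a b e
  rcases le_total a b with hle | hle
  · refine arith (a := a) (b := b) (p := p) (m := R.card) (e := e)
      (s2 := 2 * ((∑ w ∈ S, d z w : ℕ) : ℤ)) (n := S.card) ?_ ?_ ?_ ?_ ?_ ?_ ?_ key2 ?_
    · omega
    · omega
    · omega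
    · omega
    · omega
    · omega
    · omega
    · rw [hcardS]
      push_cast
      ring
  · refine arith (a := b) (b := a) (p := p) (m := R.card) (e := e)
      (s2 := 2 * ((∑ w ∈ S, d z w : ℕ) : ℤ)) (n := S.card) ?_ ?_ ?_ ?_ ?_ ?_ ?_ ?_ ?_
    · omega
    · omega
    · omega
    · omega
    · omega
    · omega
    · omega
    · linarith [key2]
    · rw [hcardS]
      push_cast
      ring

/-- The value of `2 (W - ε)` on a set. -/
def f2 (d : V → V → ℕ) (S : Finset V) : ℤ := (W2 d S : ℤ) - 2 * E1 d S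

theorem treeBound (h : TM d) {x y : V} (hD : 7 ≤ d x y) (S : Finset V) :
    Conv d S → x ∈ S → y ∈ S → (∀ a ∈ S, ∀ b ∈ S, d a b ≤ d x y) →
      f2 d S ≤ F2 S.card ∧ (f2 d S = F2 S.card → S = Pt d x y) := by
  induction S using Finset.strongInduction with
  | _ S ih =>
    intro hS hx hy hdiam
    have hPS : Pt d x y ⊆ S := by
      intro w hw
      exact hS x hx y hy w (mem_Pt.1 hw)
    by_cases hSP : S = Pt d x y
    · refine ⟨le_of_eq ?_, fun _ => hSP⟩
      rw [hSP, Pt_card h]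
      unfold f2 F2
      rw [Pt_W2 h, Pt_E1 h]
    · have hne : (S \ Pt d x y).Nonempty := by
        rw [Finset.sdiff_nonempty]
        intro hcon
        exact hSP (Finset.Subset.antisymm hcon hPS)
      obtain ⟨z, hz, hmax⟩ := Finset.exists_max_image (S \ Pt d x y) (fun w => d x w) hne
      rw [mem_sdiff] at hz
      obtain ⟨hzS, hzP⟩ := hz
      have hxP : x ∈ Pt d x y := by
        rw [mem_Pt, h.self x]; omega
      have hyP : y ∈ Pt d x y := by
        rw [mem_Pt, h.self y]; omega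
      have hzx : x ≠ z := by rintro rfl; exact hzP hxP
      have hzy : y ≠ z := by rintro rfl; exact hzP hyP
      set S' := S.erase z with hS'
      have hxS' : x ∈ S' := mem_erase.2 ⟨hzx, hx⟩
      have hyS' : y ∈ S' := mem_erase.2 ⟨hzy, hy⟩
      -- the key point: `z` is not between a point of `S'` and `x`
      have hkey : ∀ w ∈ S', d x z + d z w = d x w → False := by
        intro w hw hxw
        rw [hS', mem_erase] at hw
        have h1 : d z w ≠ 0 := fun h0 => hw.1 (h.toGM.eq_of_zero h0).symm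
        have hwP : w ∈ Pt d x y := by
          by_contra hcon
          have := hmax w (mem_sdiff.2 ⟨hw.2, hcon⟩)
          omega
        rw [mem_Pt] at hwP
        have h2 := h.tri z w y
        have h3 := h.tri x z y
        exact hzP (mem_Pt.2 (by omega))
      have hconv : Conv d S' := by
        intro w1 hw1 w2 hw2 c hc
        have hcS := hS w1 (mem_of_mem_erase hw1) w2 (mem_of_mem_erase hw2) c hc
        refine mem_erase.2 ⟨?_, hcS⟩
        rintro rfl
        rcases h.t2 w1 c w2 x hc with h1 | h1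
        · exact hkey w1 hw1 h1
        · exact hkey w2 hw2 h1
      have hdiam' : ∀ a ∈ S', ∀ b ∈ S', d a b ≤ d x y := fun a ha b hb =>
        hdiam a (mem_of_mem_erase ha) b (mem_of_mem_erase hb)
      have hss : S' ⊂ S := Finset.erase_ssubset hzS
      obtain ⟨ih1, -⟩ := ih S' hss hconv hxS' hyS' hdiam'
      have hcard : S'.card + 1 = S.card := Finset.card_erase_add_one hzS
      -- compare
      have hW : W2 d S = W2 d S' + 2 * ∑ w ∈ S, d z w := by
        unfold W2
        have e1 : ∀ a ∈ S', ∑ b ∈ S, d a b = ∑ b ∈ S', d a b + d a z := by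
          intro a _
          rw [hS', sum_erase_add _ _ hzS]
        rw [← sum_erase_add _ _ hzS, ← hS', sum_congr rfl e1, sum_add_distrib]
        have e2 : ∑ a ∈ S', d a z = ∑ w ∈ S, d z w := by
          rw [← sum_erase_add S (fun w => d z w) hzS, h.self z, ← hS', add_zero]
          exact sum_congr rfl fun a _ => h.symm a z
        rw [e2]
        ring
      have hE : E1 d S' + S.sup (d z) ≤ E1 d S := by
        unfold E1
        rw [← sum_erase_add S _ hzS, ← hS']
        refine Nat.add_le_add_right (sum_le_sum fun a _ => ?_) _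
        exact Finset.sup_mono (erase_subset z S)
      have hsig := sigma_bound h hS hx hy hzS hzP hdiam hD
      have hstep := F2_step S'.card
      rw [hcard] at hstep
      have hlt : f2 d S < F2 S.card := by
        unfold f2 at ih1 ⊢
        zify at hW hE
        push_cast at hsig
        rw [hW]
        linarith
      exact ⟨hlt.le, fun heq => absurd heq hlt.ne⟩

end tree

end Pool.Agent.R150.Wie
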